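import Mathlib
import Pool.Agent.H28.Loew

open Filter Topology Metric Complex Set
open scoped InnerProductSpace ComplexConjugate
open Pool.Agent.H28.Shear Pool.Agent.H28.Loew

namespace Pool.Agent.Results.MP_2306a6_an.Sharp

/-- `ℂⁿ` with the Euclidean norm. -/
abbrev E (n : ℕ) : Type := EuclideanSpace ℂ (Fin n)

/-- A normalized Loewner chain on the unit ball. -/
def Chain {n : ℕ} (F : ℝ → E n → E n) : Prop :=
  (∀ t, 0 ≤ t → AnalyticOnNhd ℂ (F t) (ball 0 1) ∧ InjOn (F t) (ball 0 1) ∧ F t 0 = 0 ∧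
    fderiv ℂ (F t) 0 = ((Real.exp t : ℝ) : ℂ) • ContinuousLinearMap.id ℂ (E n)) ∧
  ∀ s t, 0 ≤ s → s ≤ t → F s '' ball 0 1 ⊆ F t '' ball 0 1

/-- `{e^(-t) F(·, t)}_{t ≥ 0}` is a normal family on the unit ball. -/
def Normal {n : ℕ} (F : ℝ → E n → E n) : Prop :=
  ∀ t : ℕ → ℝ, (∀ k, 0 ≤ t k) → ∃ φ : ℕ → ℕ, StrictMono φ ∧ ∃ g : E n → E n,
    TendstoLocallyUniformlyOn
      (fun k z => ((Real.exp (-t (φ k)) : ℝ) : ℂ) • F (t (φ k)) z) g atTop (ball 0 1)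

/-- The class `S⁰(𝔹ⁿ)`. -/
def S0 (n : ℕ) : Set (E n → E n) := {f | ∃ F, Chain F ∧ Normal F ∧ F 0 = f}

/-- `P₂(z) = (1/2) D²f(0)(z, z)`. -/
noncomputable def P2 {n : ℕ} (f : E n → E n) (z : E n) : E n :=
  (2 : ℂ)⁻¹ • iteratedFDeriv ℂ 2 f 0 (fun _ => z)

/-- `‖P₂‖ = sup {‖P₂(z)‖ : ‖z‖ = 1}`. -/
noncomputable def normP2 {n : ℕ} (f : E n → E n) : ℝ :=
  sSup {r | ∃ z : E n, ‖z‖ = 1 ∧ r = ‖P2 f z‖}

/-- `M_n = sup {‖P₂‖ : f ∈ S⁰(𝔹ⁿ)}`. -/
noncomputable def M (n : ℕ) : ℝ := sSup (normP2 '' S0 n)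

lemma upper {n : ℕ} {f : E n → E n} (hf : f ∈ S0 n) {z : E n} (hz : ‖z‖ = 1) :
    ‖P2 f z‖ ≤ 3 * √3 / 2 := by
  obtain ⟨F, ⟨h1, h2⟩, hN, rfl⟩ := hf
  obtain ⟨φ, hφ, g, hg⟩ := hN (fun k => (k : ℝ) + 1) (fun k => by positivity)
  have han : ∀ k : ℕ, AnalyticOnNhd ℂ
      (fun z => ((Real.exp (-((φ k : ℝ) + 1)) : ℝ) : ℂ) • F ((φ k : ℝ) + 1) z) (ball 0 1) :=
    fun k y hy => (analyticAt_const (v := ((Real.exp (-((φ k : ℝ) + 1)) : ℝ) : ℂ))).smul
      ((h1 ((φ k : ℝ) + 1) (by positivity)).1 y hy)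
  have hgc : ContinuousOn g (ball 0 1) :=
    hg.continuousOn (Eventually.of_forall fun k => (han k).continuousOn).frequently
  have hsub : closedBall (0 : E n) (1 / 2) ⊆ ball 0 1 := closedBall_subset_ball (by norm_num)
  obtain ⟨C, hC⟩ := (isCompact_closedBall (0 : E n) (1 / 2)).exists_bound_of_continuousOn
    (hgc.mono hsub)
  have hu := (tendstoLocallyUniformlyOn_iff_forall_isCompact isOpen_ball).1 hg _ hsub
    (isCompact_closedBall _ _)
  have hev := Metric.tendstoUniformlyOn_iff.1 hu 1 one_pos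
  have hlim : Tendsto (fun k : ℕ => 3 * √3 + Real.exp (-((φ k : ℝ) + 1)) * (8 * (C + 1))) atTop
      (𝓝 (3 * √3 + 0 * (8 * (C + 1)))) := by
    refine Tendsto.const_add _ (Tendsto.mul_const _ ?_)
    refine Real.tendsto_exp_neg_atTop_nhds_zero.comp ?_
    exact tendsto_atTop_add_const_right _ _ (tendsto_natCast_atTop_atTop.comp hφ.tendsto_atTop)
  have hQ : ‖Q (F 0) z‖ ≤ 3 * √3 + 0 * (8 * (C + 1)) := by
    refine ge_of_tendsto hlim ?_
    filter_upwards [hev] with k hk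
    have a1 := chain_le h1 h2 hz (T := (φ k : ℝ) + 1) (by positivity)
    have a2 := Q_cauchy (han k) (C := C + 1) (fun y hy => by
      have b1 := hk y hy
      have b2 := hC y hy
      rw [dist_comm, dist_eq_norm] at b1
      linarith [norm_le_norm_add_norm_sub' (((Real.exp (-((φ k : ℝ) + 1)) : ℝ) : ℂ) •
        F ((φ k : ℝ) + 1) y) (g y)]) hz
    rw [Q, iteratedDeriv_fun_const_smul_field, ← Q, norm_smul, norm_real,
      Real.norm_of_nonneg (Real.exp_pos _).le] at a2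
    have a3 : ‖((Real.exp (-2 * ((φ k : ℝ) + 1)) : ℝ) : ℂ) • Q (F ((φ k : ℝ) + 1)) z‖ ≤
        Real.exp (-((φ k : ℝ) + 1)) * (8 * (C + 1)) := by
      rw [norm_smul, norm_real, Real.norm_of_nonneg (Real.exp_pos _).le,
        show -2 * ((φ k : ℝ) + 1) = -((φ k : ℝ) + 1) + -((φ k : ℝ) + 1) by ring, Real.exp_add,
        mul_assoc]
      gcongr
    linarith [norm_le_norm_add_norm_sub' (Q (F 0) z)
      (((Real.exp (-2 * ((φ k : ℝ) + 1)) : ℝ) : ℂ) • Q (F ((φ k : ℝ) + 1)) z)]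
  rw [P2, ← Q_eq ((h1 0 le_rfl).1 0 (mem_ball_self one_pos)), norm_smul]
  simp only [norm_inv, norm_ofNat]
  linarith

lemma attained {n : ℕ} (hn : 2 ≤ n) :
    ∃ f ∈ S0 n, ∃ z : E n, ‖z‖ = 1 ∧ 3 * √3 / 2 = ‖P2 f z‖ := by
  set a : ℝ := 3 * √3 / 2 with ha
  have ha0 : 0 ≤ a := by positivity
  set i : Fin n := ⟨0, by omega⟩
  set j : Fin n := ⟨1, by omega⟩
  have hij : i ≠ j := by simp [i, j]
  set e : E n := EuclideanSpace.single j 1 with he
  set w : E n := EuclideanSpace.single i 1 with hw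
  have he1 : ‖e‖ = 1 := by simp [he]
  have hw1 : ‖w‖ = 1 := by simp [hw]
  have hew : ⟪e, w⟫_ℂ = 0 := by simp [he, hw, EuclideanSpace.inner_single_left, hij.symm]
  set f := shear (ContinuousLinearMap.id ℂ (E n)) e w a 2 with hf
  have hfe : ∀ z, ⟪e, f z⟫_ℂ = ⟪e, z⟫_ℂ := fun z => by
    simp [hf, shear, inner_add_right, inner_smul_right, hew]
  have hinj : Function.Injective f := by
    intro y z hyz
    have h1 : ⟪e, y⟫_ℂ = ⟪e, z⟫_ℂ := by rw [← hfe, hyz, hfe]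
    simpa [hf, shear, h1] using hyz
  have hfa := shear_an (ContinuousLinearMap.id ℂ (E n)) e w a 2 (ball 0 1)
  have hexp : ∀ t : ℝ, ((Real.exp t : ℝ) : ℂ) ≠ 0 := fun t => by
    exact_mod_cast (Real.exp_pos t).ne'
  have hmem : f ∈ S0 n := by
    refine ⟨fun t z => ((Real.exp t : ℝ) : ℂ) • f z, ⟨fun t _ => ⟨?_, ?_, ?_, ?_⟩, ?_⟩, ?_, ?_⟩
    · exact fun y hy => (analyticAt_const (v := ((Real.exp t : ℝ) : ℂ))).smul (hfa y hy)
    · exact fun y _ z _ h => hinj (smul_right_injective _ (hexp t) h)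
    · simp [hf, shear]
    · have := ((hfa 0 (mem_ball_self one_pos)).differentiableAt.hasFDerivAt.const_smul
        ((Real.exp t : ℝ) : ℂ)).fderiv
      rw [shear_fderiv _ _ _ _ le_rfl] at this
      exact this
    · rintro s t _ hst _ ⟨z, hz, rfl⟩
      set l := Real.exp (s - t) with hl
      have hl1 : l ≤ 1 := Real.exp_le_one_iff.2 (by linarith)
      have e2 : ‖⟪w, z⟫_ℂ‖ = ‖z i‖ := by simp [hw, EuclideanSpace.inner_single_left]
      have e3 : ‖⟪e, z⟫_ℂ‖ = ‖z j‖ := by simp [he, EuclideanSpace.inner_single_left]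
      have e4 : ‖z i‖ ^ 2 + ‖z j‖ ^ 2 ≤ ‖z‖ ^ 2 := by
        rw [EuclideanSpace.norm_sq_eq, ← Finset.sum_pair (f := fun l => ‖z l‖ ^ 2) hij]
        exact Finset.sum_le_sum_of_subset_of_nonneg (Finset.subset_univ _)
          fun _ _ _ => by positivity
      refine ⟨_, mem_ball_zero_iff.2 (star_mem (e := e) hw1 (mem_ball_zero_iff.1 hz)
        (by rw [e2, e3]; exact e4) (Real.exp_pos (s - t)).le hl1), ?_⟩
      have e5 : ((Real.exp s : ℝ) : ℂ) = ((Real.exp t : ℝ) : ℂ) * (l : ℂ) := by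
        rw [← ofReal_mul, hl, ← Real.exp_add]; congr 2; ring
      simp only [hf, shear, ContinuousLinearMap.id_apply, inner_smul_right, inner_add_right, hew,
        e5, ← hl, ← ha]
      push_cast
      module
    · intro t _
      refine ⟨id, strictMono_id, f, ?_⟩
      have : (fun (k : ℕ) z => ((Real.exp (-t (id k)) : ℝ) : ℂ) •
          ((Real.exp (t (id k)) : ℝ) : ℂ) • f z) = fun _ => f := by
        funext k z
        rw [smul_smul, ← ofReal_mul, ← Real.exp_add]; simp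
      rw [this]
      refine TendstoUniformlyOn.tendstoLocallyUniformlyOn ?_
      intro u hu
      exact Eventually.of_forall fun k y _ => refl_mem_uniformity hu
    · funext z; simp
  refine ⟨f, hmem, e, he1, le_antisymm ?_ (upper hmem he1)⟩
  have h1 := shear_coef (ContinuousLinearMap.id ℂ (E n)) he1 hw1 a le_rfl
  have h2 := norm_inner_le_norm (𝕜 := ℂ) w (P2 f e)
  rw [P2, inner_smul_right, ← div_eq_inv_mul, hw1, one_mul] at h2
  simp only [Nat.factorial_two, Nat.cast_ofNat] at h1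
  rw [h1, norm_real, Real.norm_of_nonneg ha0] at h2
  exact h2

theorem result (n : ℕ) (hn : 2 ≤ n) :
    IsGreatest {r | ∃ f ∈ S0 n, ∃ z : E n, ‖z‖ = 1 ∧ r = ‖P2 f z‖} (3 * √3 / 2) ∧
    IsGreatest (normP2 '' S0 n) (3 * √3 / 2) ∧ M n = 3 * √3 / 2 := by
  obtain ⟨h, hh, z, hz, he⟩ := attained hn
  have h2 : IsGreatest (normP2 '' S0 n) (3 * √3 / 2) := by
    refine ⟨⟨h, hh, IsGreatest.csSup_eq ⟨⟨z, hz, he⟩, ?_⟩⟩, ?_⟩
    · rintro _ ⟨v, hv, rfl⟩
      exact upper hh hv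
    · rintro _ ⟨g, hg, rfl⟩
      refine csSup_le ⟨_, z, hz, rfl⟩ ?_
      rintro _ ⟨v, hv, rfl⟩
      exact upper hg hv
  refine ⟨⟨⟨h, hh, z, hz, he⟩, ?_⟩, h2, h2.csSup_eq⟩
  rintro _ ⟨g, hg, v, hv, rfl⟩
  exact upper hg hv

end Pool.Agent.Results.MP_2306a6_an.Sharp
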